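import Pool.Agent.U965.ET.Fld

/-!
# Function fields (helper965)
-/

set_option autoImplicit false

namespace Pool.Agent.U965.ET

open Pool.Agent.N236.UB Pool.Agent.N236.UR
open scoped Cardinal

/-- the p-adic numbers contain infinitely many algebraically independent elements -/
theorem padic_indep (p : ℕ) [Fact p.Prime] (ι : Type) [Countable ι] :
    ∃ x : ι → ℚ_[p], AlgebraicIndependent ℚ x := by
  obtain ⟨s, hs⟩ := exists_isTranscendenceBasis ℚ ℚ_[p]
  have hinf : ¬ Countable s := by
    intro hc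
    have halg : Algebra.IsAlgebraic (Algebra.adjoin ℚ (Set.range ((↑) : s → ℚ_[p]))) ℚ_[p] := hs.isAlgebraic
    have h1 := Algebra.IsAlgebraic.cardinalMk_le_max (Algebra.adjoin ℚ (Set.range ((↑) : s → ℚ_[p]))) ℚ_[p]
    have h2 : #(Algebra.adjoin ℚ (Set.range ((↑) : s → ℚ_[p]))) ≤ ℵ₀ := by
      rw [← Cardinal.mk_congr hs.1.aevalEquiv.toEquiv]
      refine MvPolynomial.cardinalMk_le_max.trans ?_
      simp
    have h3 : #ℚ_[p] ≤ ℵ₀ := h1.trans (max_le h2 le_rfl)
    have h4 := continuum_le_cardinal_of_nontriviallyNormedField ℚ_[p]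
    exact absurd (h4.trans h3) (not_le.2 Cardinal.aleph0_lt_continuum)
  have hinj : Nonempty (ι ↪ s) := by
    rw [← Cardinal.le_def]
    have h1 : #ι ≤ ℵ₀ := Cardinal.mk_le_aleph0
    have h2 : ℵ₀ ≤ #s := by
      by_contra h
      exact hinf (Cardinal.mk_le_aleph0_iff.1 (not_le.1 h).le)
    exact h1.trans h2
  obtain ⟨f⟩ := hinj
  exact ⟨fun i => (f i : ℚ_[p]), hs.1.comp _ f.injective⟩

/-- rational function fields over the rational numbers in countably many variables -/
theorem locDeg_rf (ι : Type) [Countable ι] : LocDeg (FractionRing (MvPolynomial ι ℚ)) 1 := by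
  intro p _
  obtain ⟨x, hx⟩ := padic_indep p ι
  refine ⟨ℚ_[p], inferInstance, inferInstance, inferInstance, (Module.finrank_self _).le, ⟨?_⟩⟩
  exact IsFractionRing.lift (A := MvPolynomial ι ℚ) (g := (MvPolynomial.aeval x : MvPolynomial ι ℚ →ₐ[ℚ] ℚ_[p]).toRingHom) hx

/-- function fields -/
theorem locDeg_ff (ι : Type) [Countable ι] (K : Type) [Field K] [Algebra (FractionRing (MvPolynomial ι ℚ)) K]
    [FiniteDimensional (FractionRing (MvPolynomial ι ℚ)) K] {D : ℕ}
    (hD : Module.finrank (FractionRing (MvPolynomial ι ℚ)) K ≤ D) : LocDeg K D :=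
  ((locDeg_rf ι).ext K).mono (by rw [one_mul]; exact hD)

end Pool.Agent.U965.ET
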