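import Pool.Agent.U965.ET.Fld

/-!
# The field of all radicals (helper965)
-/

set_option autoImplicit false

open Polynomial

namespace Pool.Agent.U965.ET

section hensel

variable {p : ℕ} [hp : Fact p.Prime]

/-- `m`-th powers near one -/
theorem hens {m : ℕ} (u : ℤ_[p]) (h : ‖u - 1‖ < ‖(m : ℤ_[p])‖ ^ 2) : ∃ w : ℤ_[p], w ^ m = u := by
  have h1 : ‖(X ^ m - C u : ℤ_[p][X]).aeval (1 : ℤ_[p])‖ <
      ‖(X ^ m - C u : ℤ_[p][X]).derivative.aeval (1 : ℤ_[p])‖ ^ 2 := by
    have e1 : (X ^ m - C u : ℤ_[p][X]).aeval (1 : ℤ_[p]) = -(u - 1) := by simp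
    have e2 : (X ^ m - C u : ℤ_[p][X]).derivative.aeval (1 : ℤ_[p]) = m := by
      rw [derivative_sub, derivative_X_pow, derivative_C, sub_zero, map_mul, map_pow, aeval_X, one_pow,
        mul_one, aeval_C]
      rfl
    rw [e1, e2, norm_neg]
    exact h
  obtain ⟨z, hz, -⟩ := hensels_lemma h1
  refine ⟨z, ?_⟩
  simpa [sub_eq_zero] using hz

end hensel

section chain

variable {k : Type} [Field k]

/-- finitely many polynomials have roots in an extension of bounded degree -/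
theorem roots_ext (m : ℕ) (L : List k[X]) (hL : ∀ f ∈ L, 0 < f.natDegree ∧ f.natDegree ≤ m) :
    ∃ (E : Type) (_ : Field E) (_ : Algebra k E), FiniteDimensional k E ∧
      Module.finrank k E ≤ m ^ L.length ∧ ∀ f ∈ L, ∃ x : E, aeval x f = 0 := by
  induction L with
  | nil => exact ⟨k, inferInstance, inferInstance, inferInstance, by simp, by simp⟩
  | cons f L ih =>
    obtain ⟨E, i1, i2, h1, h2, h3⟩ := ih fun g hg => hL g (List.mem_cons_of_mem _ hg)
    obtain ⟨hf1, hf2⟩ := hL f List.mem_cons_self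
    obtain ⟨g, hg, hgf⟩ := exists_irreducible_of_natDegree_pos (f := f.map (algebraMap k E))
      (by rwa [natDegree_map])
    haveI : Fact (Irreducible g) := ⟨hg⟩
    have hf0 : f.map (algebraMap k E) ≠ 0 := by
      intro h0
      rw [← natDegree_map (algebraMap k E), h0, natDegree_zero] at hf1
      exact lt_irrefl _ hf1
    have hgd : g.natDegree ≤ m := by
      refine (natDegree_le_of_dvd hgf hf0).trans ?_
      rwa [natDegree_map]
    haveI : FiniteDimensional E (AdjoinRoot g) := (AdjoinRoot.powerBasis hg.ne_zero).finite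
    have hfr : Module.finrank E (AdjoinRoot g) ≤ m := by
      rw [(AdjoinRoot.powerBasis hg.ne_zero).finrank, AdjoinRoot.powerBasis_dim]
      exact hgd
    refine ⟨AdjoinRoot g, inferInstance, inferInstance, FiniteDimensional.trans k E (AdjoinRoot g), ?_, ?_⟩
    · rw [← Module.finrank_mul_finrank k E (AdjoinRoot g), List.length_cons, pow_succ]
      exact Nat.mul_le_mul h2 hfr
    · intro q hq
      rcases List.mem_cons.1 hq with rfl | hq
      · refine ⟨AdjoinRoot.root g, ?_⟩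
        obtain ⟨c, hc⟩ := hgf
        have e : aeval (AdjoinRoot.root g) q = aeval (AdjoinRoot.root g) (q.map (algebraMap k E)) := by
          rw [aeval_map_algebraMap]
        rw [e, hc, map_mul]
        simp
      · obtain ⟨x, hx⟩ := h3 q hq
        refine ⟨algebraMap E (AdjoinRoot g) x, ?_⟩
        rw [aeval_algebraMap_apply, hx, map_zero]

end chain

section reps

variable {p : ℕ} [hp : Fact p.Prime]

theorem quot_pow {m : ℕ} (a c : ℤ_[p]) (hc : IsUnit c) (h : ‖a - c‖ < ‖(m : ℤ_[p])‖ ^ 2) :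
    ∃ w : ℤ_[p], a = c * w ^ m := by
  obtain ⟨b, hb⟩ := hc
  have h1 : ‖a * (↑b⁻¹ : ℤ_[p]) - 1‖ < ‖(m : ℤ_[p])‖ ^ 2 := by
    have e : a * (↑b⁻¹ : ℤ_[p]) - 1 = (a - c) * (↑b⁻¹ : ℤ_[p]) := by
      rw [sub_mul, ← hb, Units.mul_inv]
    rw [e, norm_mul, PadicInt.norm_units, mul_one]
    exact h
  obtain ⟨w, hw⟩ := hens _ h1
  refine ⟨w, ?_⟩
  rw [hw, ← hb, mul_comm a, ← mul_assoc, Units.mul_inv, one_mul]

/-- a bounded number of integers represents all units modulo `m`-th powers -/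
theorem reps (m : ℕ) (hm : 1 ≤ m) : ∃ L : List ℕ, L.length ≤ m ^ 3 + 1 ∧
    ∀ a : ℤ_[p], IsUnit a → ∃ c ∈ L, ∃ (j : ℕ) (w : ℤ_[p]), a = (c : ℤ_[p]) ^ j * w ^ m := by
  by_cases hpm : p ∣ m
  · obtain ⟨v, m', hm', hmv⟩ := Nat.exists_eq_pow_mul_and_not_dvd (n := m) (by omega) p hp.1.ne_one
    have hm'0 : 0 < m' := Nat.pos_of_ne_zero (by rintro rfl; exact hm' (dvd_zero _))
    have hpv : p ^ v ≤ m := by
      rw [hmv]
      exact Nat.le_mul_of_pos_right _ hm'0
    have hpm' : p ≤ m := Nat.le_of_dvd (by omega) hpm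
    have hle : p ^ (2 * v + 1) ≤ m ^ 3 := by
      calc p ^ (2 * v + 1) = p ^ v * p ^ v * p := by ring
        _ ≤ m * m * m := Nat.mul_le_mul (Nat.mul_le_mul hpv hpv) hpm'
        _ = m ^ 3 := by ring
    refine ⟨List.range (m ^ 3 + 1), by rw [List.length_range], ?_⟩
    intro a ha
    have hspec := PadicInt.appr_spec (2 * v + 1) a
    have hlt := PadicInt.appr_lt a (2 * v + 1)
    have hn := (PadicInt.norm_le_pow_iff_mem_span_pow _ _).2 hspec
    have hp1 : (1 : ℝ) < p := by exact_mod_cast hp.1.one_lt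
    have hnm : ‖(m : ℤ_[p])‖ = (p : ℝ) ^ (-(v : ℤ)) := by
      rw [hmv]
      push_cast
      rw [norm_mul, PadicInt.norm_p_pow]
      have h1 : ‖(m' : ℤ_[p])‖ = 1 := by
        rw [PadicInt.norm_natCast_eq_one_iff]
        exact (Nat.Prime.coprime_iff_not_dvd hp.1).2 hm'
      rw [h1, mul_one]
    have hlt2 : ‖a - (a.appr (2 * v + 1) : ℤ_[p])‖ < ‖(m : ℤ_[p])‖ ^ 2 := by
      refine lt_of_le_of_lt hn ?_
      rw [hnm, ← zpow_natCast, ← zpow_mul]
      refine zpow_lt_zpow_right₀ hp1 ?_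
      push_cast
      omega
    have hcu : IsUnit (a.appr (2 * v + 1) : ℤ_[p]) := by
      have h1 : ‖a - (a.appr (2 * v + 1) : ℤ_[p])‖ < 1 := by
        refine lt_of_lt_of_le hlt2 ?_
        exact pow_le_one₀ (norm_nonneg _) (PadicInt.norm_le_one _)
      rw [PadicInt.isUnit_iff] at ha ⊢
      by_contra hne
      have h2 : ‖(a.appr (2 * v + 1) : ℤ_[p])‖ < 1 := lt_of_le_of_ne (PadicInt.norm_le_one _) hne
      have h3 := PadicInt.nonarchimedean (a - (a.appr (2 * v + 1) : ℤ_[p])) (a.appr (2 * v + 1) : ℤ_[p])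
      rw [sub_add_cancel, ha] at h3
      exact absurd h3 (not_le.2 (max_lt h1 h2))
    obtain ⟨w, hw⟩ := quot_pow a _ hcu hlt2
    refine ⟨a.appr (2 * v + 1), List.mem_range.2 (by omega), 1, w, ?_⟩
    rw [pow_one]
    exact hw
  · obtain ⟨g, hg⟩ := IsCyclic.exists_generator (α := (ZMod p)ˣ)
    refine ⟨[(g : ZMod p).val], by simp, ?_⟩
    intro a ha
    have hau : IsUnit (PadicInt.toZMod a) := ha.map PadicInt.toZMod
    obtain ⟨b, hb⟩ := hau
    have h1 : b ∈ Submonoid.powers g := by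
      rw [mem_powers_iff_mem_zpowers]
      exact hg b
    obtain ⟨j, hj⟩ := h1
    have hgz : PadicInt.toZMod (((g : ZMod p).val : ℕ) : ℤ_[p]) = (g : ZMod p) := by
      rw [map_natCast, ZMod.natCast_zmod_val]
    have hker : ∀ x : ℤ_[p], PadicInt.toZMod x = 0 ↔ ‖x‖ < 1 := by
      intro x
      rw [← RingHom.mem_ker, PadicInt.ker_toZMod, ← PadicInt.mem_nonunits]
      rfl
    have hcu : IsUnit ((((g : ZMod p).val : ℕ) : ℤ_[p]) ^ j) := by
      apply IsUnit.pow
      rw [PadicInt.isUnit_iff]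
      by_contra hne
      have h2 : ‖(((g : ZMod p).val : ℕ) : ℤ_[p])‖ < 1 := lt_of_le_of_ne (PadicInt.norm_le_one _) hne
      rw [← hker, hgz] at h2
      exact g.ne_zero h2
    have hlt : ‖a - (((g : ZMod p).val : ℕ) : ℤ_[p]) ^ j‖ < ‖(m : ℤ_[p])‖ ^ 2 := by
      have h2 : ‖(m : ℤ_[p])‖ = 1 := by
        rw [PadicInt.norm_natCast_eq_one_iff]
        exact (Nat.Prime.coprime_iff_not_dvd hp.1).2 hpm
      rw [h2, one_pow, ← hker, map_sub, map_pow, hgz, ← hb, ← hj]
      simp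
    obtain ⟨w, hw⟩ := quot_pow a _ hcu hlt
    exact ⟨_, List.mem_singleton.2 rfl, j, w, hw⟩

end reps

section main

/-- The field generated by all `m`-th roots of all rational numbers. -/
noncomputable abbrev radicals (m : ℕ) : IntermediateField ℚ (AlgebraicClosure ℚ) :=
  IntermediateField.adjoin ℚ {x | ∃ a : ℚ, x ^ m = algebraMap ℚ (AlgebraicClosure ℚ) a}

theorem locDeg_rad (m : ℕ) (hm : 1 ≤ m) : LocDeg (radicals m) (m ^ (m ^ 3 + 3)) := by
  intro p hp
  obtain ⟨L, hL, hrep⟩ := reps (p := p) m hm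
  set S : List ℚ_[p][X] := cyclotomic m ℚ_[p] :: (X ^ m - C (p : ℚ_[p])) ::
    (L.map fun c : ℕ => (X ^ m - C (c : ℚ_[p]) : ℚ_[p][X])) with hS
  have hdeg : ∀ f ∈ S, 0 < f.natDegree ∧ f.natDegree ≤ m := by
    intro f hf
    rw [hS] at hf
    rcases List.mem_cons.1 hf with rfl | hf
    · rw [natDegree_cyclotomic]
      exact ⟨Nat.totient_pos.2 hm, Nat.totient_le m⟩
    rcases List.mem_cons.1 hf with rfl | hf
    · rw [natDegree_X_pow_sub_C]
      exact ⟨hm, le_rfl⟩
    · obtain ⟨c, -, rfl⟩ := List.mem_map.1 hf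
      rw [natDegree_X_pow_sub_C]
      exact ⟨hm, le_rfl⟩
  obtain ⟨E, i1, i2, h1, h2, h3⟩ := roots_ext m S hdeg
  haveI : CharZero E := charZero_of_injective_algebraMap (algebraMap ℚ_[p] E).injective
  refine ⟨E, i1, i2, h1, ?_, ?_⟩
  · refine h2.trans (Nat.pow_le_pow_right hm ?_)
    rw [hS, List.length_cons, List.length_cons, List.length_map]
    omega
  · obtain ⟨ζ, hζ⟩ := h3 _ (List.mem_cons_self)
    have hζ' : IsPrimitiveRoot ζ m := by
      rw [← isRoot_cyclotomic_iff_charZero (by omega)]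
      rw [aeval_def, ← eval_map, map_cyclotomic] at hζ
      exact hζ
    obtain ⟨π, hπ⟩ := h3 (X ^ m - C (p : ℚ_[p])) (by rw [hS]; exact List.mem_cons_of_mem _ List.mem_cons_self)
    have hπ' : π ^ m = (p : E) := by
      have : π ^ m - (p : E) = 0 := by simpa using hπ
      exact sub_eq_zero.1 this
    have hγ : ∀ c ∈ L, ∃ γ : E, γ ^ m = (c : E) := by
      intro c hc
      obtain ⟨γ, h⟩ := h3 (X ^ m - C (c : ℚ_[p])) (by
        rw [hS]
        exact List.mem_cons_of_mem _ (List.mem_cons_of_mem _ (List.mem_map.2 ⟨c, hc, rfl⟩)))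
      refine ⟨γ, ?_⟩
      have : γ ^ m - (c : E) = 0 := by simpa using h
      exact sub_eq_zero.1 this
    have hroot : ∀ a : ℚ_[p], ∃ α : E, α ^ m = algebraMap ℚ_[p] E a := by
      intro a
      by_cases ha : a = 0
      · exact ⟨0, by rw [ha, map_zero, zero_pow (by omega)]⟩
      · have hp0 : (p : ℚ_[p]) ≠ 0 := by exact_mod_cast hp.1.ne_zero
        have hu : ‖a * (p : ℚ_[p]) ^ (-a.valuation)‖ = 1 := by
          rw [norm_mul, norm_zpow, Padic.norm_p, Padic.norm_eq_zpow_neg_valuation ha, inv_zpow', neg_neg,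
            ← zpow_add₀ (by exact_mod_cast hp.1.ne_zero : (p : ℝ) ≠ 0), neg_add_cancel, zpow_zero]
        set u : ℤ_[p] := ⟨a * (p : ℚ_[p]) ^ (-a.valuation), hu.le⟩ with hudef
        have huu : IsUnit u := by
          rw [PadicInt.isUnit_iff]
          exact hu
        obtain ⟨c, hc, j, w, hw⟩ := hrep u huu
        obtain ⟨γ, hγ'⟩ := hγ c hc
        have hw' : a * (p : ℚ_[p]) ^ (-a.valuation) = (c : ℚ_[p]) ^ j * (w : ℚ_[p]) ^ m := by
          have := congrArg (fun z : ℤ_[p] => (z : ℚ_[p])) hw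
          simpa [hudef] using this
        have ha' : a = (c : ℚ_[p]) ^ j * (w : ℚ_[p]) ^ m * (p : ℚ_[p]) ^ a.valuation := by
          rw [← hw', mul_assoc, ← zpow_add₀ hp0, neg_add_cancel, zpow_zero, mul_one]
        refine ⟨γ ^ j * algebraMap ℚ_[p] E w * π ^ a.valuation, ?_⟩
        conv_rhs => rw [ha']
        rw [mul_pow, mul_pow, ← pow_mul, mul_comm j m, pow_mul, hγ', ← zpow_natCast (π ^ a.valuation) m,
          ← zpow_mul, mul_comm a.valuation, zpow_mul, zpow_natCast, hπ', map_mul, map_mul, map_pow, map_pow,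
          map_zpow₀, map_natCast, map_natCast]
    obtain ⟨φ⟩ : Nonempty (radicals m →ₐ[ℚ] E) := by
      refine IntermediateField.nonempty_algHom_adjoin_of_splits ?_
      rintro s ⟨a, ha⟩
      have hint : IsIntegral ℚ s := by
        refine ⟨X ^ m - C a, monic_X_pow_sub_C a (by omega), ?_⟩
        rw [← aeval_def, map_sub, map_pow, aeval_X, aeval_C, ha, sub_self]
      refine ⟨hint, ?_⟩
      obtain ⟨α, hα⟩ := hroot (a : ℚ_[p])
      have hα' : α ^ m = algebraMap ℚ E a := by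
        rw [hα]
        simp
      have hsp := X_pow_sub_C_splits_of_isPrimitiveRoot hζ' hα'
      have hdvd : minpoly ℚ s ∣ X ^ m - C a := by
        apply minpoly.dvd
        rw [map_sub, map_pow, aeval_X, aeval_C, ha, sub_self]
      refine Splits.of_dvd hsp (X_pow_sub_C_ne_zero (by omega) _) ?_
      have := Polynomial.map_dvd (algebraMap ℚ E) hdvd
      simpa using this
    exact ⟨φ.toRingHom⟩

end main

end Pool.Agent.U965.ET
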