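import Pool.Agent.U965.ET.Plc3
import Pool.Agent.N236.UR.Main5
import Pool.Agent.N236.UR.DIMain3

/-!
# Periods independent of the degree (helper965): normal forms and good steps
-/

set_option autoImplicit false

open Polynomial

namespace Pool.Agent.U965.ET

open Pool.Agent.N236.UB Pool.Agent.N236.UR
open scoped LinearAlgebra.Projectivization

/-- Compositions of linear maps and of exactly `j` power or Dickson maps, together with the degree. -/
inductive Cmp (K : Type) [Field K] (b c : ℕ) : ℕ → ℕ → (K × K → K × K) → Prop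
  | linear (A : Matrix (Fin 2) (Fin 2) K) (hA : A.det ≠ 0) : Cmp K b c 0 1 (lin A)
  | power (m : ℕ) (hm : 2 ≤ m) (h : Nat.Coprime m b) : Cmp K b c 1 m (pw m)
  | dickson (l : ℕ) (a : K) (hl : l.Prime) (h : Nat.Coprime l c) : Cmp K b c 1 l (dkm l a)
  | comp (j k d e : ℕ) (f g : K × K → K × K) (hf : Cmp K b c j d f) (hg : Cmp K b c k e g) :
      Cmp K b c (j + k) (d * e) (f ∘ g)

/-- good stages -/
def okS (K : Type) (b c : ℕ) : Sg K → Prop
  | .pow m => 2 ≤ m ∧ Nat.Coprime m b
  | .dic l _ => l.Prime ∧ Nat.Coprime l c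

section nf

variable {K : Type} [Field K] {b c : ℕ}

theorem okS.two {s : Sg K} (h : okS K b c s) : 2 ≤ s.deg := by
  cases s with
  | pow m => exact h.1
  | dic l a => exact h.1.two_le

theorem lin_one (y : K × K) : lin (1 : Matrix (Fin 2) (Fin 2) K) y = y := by
  unfold lin
  simp

theorem runS_app (s t : List (Matrix (Fin 2) (Fin 2) K × Sg K)) (x : K × K) :
    runS (s ++ t) x = runS t (runS s x) := by
  induction s generalizing x with
  | nil => rfl
  | cons a s ih => exact ih _

/-- the normal form -/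
theorem nf {j d : ℕ} {f : K × K → K × K} (h : Cmp K b c j d f) :
    ∃ (st : List (Matrix (Fin 2) (Fin 2) K × Sg K)) (B : Matrix (Fin 2) (Fin 2) K),
      (∀ s ∈ st, s.1.det ≠ 0 ∧ okS K b c s.2) ∧ B.det ≠ 0 ∧ st.length = j ∧
      (st.map fun s => s.2.deg).prod = d ∧ ∀ x, f x = lin B (runS st x) := by
  induction h with
  | linear A hA => exact ⟨[], A, by simp, hA, rfl, rfl, fun x => rfl⟩
  | power m hm h =>
    refine ⟨[(1, .pow m)], 1, ?_, by simp, rfl, by simp [Sg.deg], fun x => ?_⟩
    · intro s hs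
      simp only [List.mem_singleton] at hs
      subst hs
      exact ⟨by simp, hm, h⟩
    · rw [lin_one]
      change _ = pw m (lin 1 x)
      rw [lin_one]
  | dickson l a hl h =>
    refine ⟨[(1, .dic l a)], 1, ?_, by simp, rfl, by simp [Sg.deg], fun x => ?_⟩
    · intro s hs
      simp only [List.mem_singleton] at hs
      subst hs
      exact ⟨by simp, hl, h⟩
    · rw [lin_one]
      change _ = dkm l a (lin 1 x)
      rw [lin_one]
  | comp j k d e f g hf hg ihf ihg =>
    obtain ⟨sf, Bf, h1, h2, h3, h4, h5⟩ := ihf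
    obtain ⟨sg, Bg, g1, g2, g3, g4, g5⟩ := ihg
    match sf, h1, h3, h4, h5 with
    | [], h1, h3, h4, h5 =>
      refine ⟨sg, Bf * Bg, g1, by rw [Matrix.det_mul]; exact mul_ne_zero h2 g2, ?_, ?_, ?_⟩
      · simp only [List.length_nil] at h3
        omega
      · simp only [List.map_nil, List.prod_nil] at h4
        rw [g4, ← h4, one_mul]
      · intro x
        rw [Function.comp_apply, h5, g5, lin_mul]
        rfl
    | (A, s) :: t, h1, h3, h4, h5 =>
      have hA := h1 (A, s) (by simp)
      refine ⟨sg ++ (A * Bg, s) :: t, Bf, ?_, h2, ?_, ?_, ?_⟩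
      · intro q hq
        rw [List.mem_append, List.mem_cons] at hq
        rcases hq with hq | hq | hq
        · exact g1 q hq
        · subst hq
          exact ⟨by rw [Matrix.det_mul]; exact mul_ne_zero hA.1 g2, hA.2⟩
        · exact h1 q (by simp [hq])
      · simp only [List.length_cons] at h3
        rw [List.length_append, List.length_cons]
        omega
      · simp only [List.map_cons, List.prod_cons] at h4
        rw [List.map_append, List.prod_append, List.map_cons, List.prod_cons, g4, ← h4]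
        ring
      · intro x
        rw [Function.comp_apply, h5, g5, runS_app]
        change lin Bf (runS t (s.fn (lin A (lin Bg (runS sg x))))) =
          lin Bf (runS t (s.fn (lin (A * Bg) (runS sg x))))
        rw [lin_mul]

end nf

section good

/-- the numbers `b`, `c` are suitable for `p` -/
def Suit (D p b c : ℕ) : Prop :=
  (p ≤ D + 1 → p ∣ b) ∧ (∀ f, 1 ≤ f → f ≤ D → p ^ f - 1 ∣ b) ∧ p ∣ c ∧
    ∀ f, 1 ≤ f → f ≤ D → p ^ (2 * f) - 1 ∣ c

theorem gsG {K : Type} [Field K] {D p b c f e : ℕ} {v : AbsoluteValue K ℝ} (hs : Suit D p b c)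
    (hp : p.Prime) (hf1 : 1 ≤ f) (hfD : f ≤ D) (he : e ≤ D) (hv : Loc v p (p ^ f) e)
    {st : List (Matrix (Fin 2) (Fin 2) K × Sg K)} (hok : ∀ s ∈ st, s.1.det ≠ 0 ∧ okS K b c s.2) :
    ∀ s ∈ st, s.1.det ≠ 0 ∧ GS v s.2.fn := by
  rintro ⟨A, s⟩ hst
  obtain ⟨h1, h2⟩ := hok (A, s) hst
  refine ⟨h1, ?_⟩
  cases s with
  | pow m =>
    obtain ⟨h3, h4⟩ := h2
    refine s_gsp K v m hv.1 (s_gl1 K v p (p ^ f) e m hv hp h3
      (Nat.Coprime.coprime_dvd_right (hs.2.1 f hf1 hfD) h4) ?_)
    rcases le_or_gt p (D + 1) with h | h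
    · left
      exact (Nat.Prime.coprime_iff_not_dvd hp).1 (Nat.Coprime.coprime_dvd_right (hs.1 h) h4).symm
    · right
      omega
  | dic l a =>
    obtain ⟨h3, h4⟩ := h2
    refine s_dgs K v p (p ^ f) e l hv hp h3
      ((Nat.Prime.coprime_iff_not_dvd hp).1 (Nat.Coprime.coprime_dvd_right hs.2.2.1 h4).symm) ?_ a
    rw [← pow_mul, mul_comm f 2]
    exact Nat.Coprime.coprime_dvd_right (hs.2.2.2 f hf1 hfD) h4

end good

end Pool.Agent.U965.ET
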