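import Pool.Agent.U965.ET.DD

/-!
# Periods independent of the degree (helper965): cycles
-/

set_option autoImplicit false

open Polynomial

namespace Pool.Agent.U965.ET

open Pool.Agent.N236.UB Pool.Agent.N236.UR
open scoped LinearAlgebra.Projectivization

section cyc

variable {K : Type} [Field K]

/-- the bound for cycles at one place -/
theorem cycG {p q e : ℕ} {v : AbsoluteValue K ℝ} (hv : Loc v p q e) (hp : p.Prime)
    {φ : ℙ K (K × K) → ℙ K (K × K)} {st : List (Matrix (Fin 2) (Fin 2) K × Sg K)}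
    {B : Matrix (Fin 2) (Fin 2) K} (hst : ∀ s ∈ st, s.1.det ≠ 0 ∧ GS v s.2.fn)
    (hdeg : ∀ s ∈ st, s.2.deg ≠ 0) (hB : B.det ≠ 0)
    (hφ : ∀ (x : K × K) (hx : x ≠ 0) (hy : lin B (runS st x) ≠ 0),
        φ (Projectivization.mk K x hx) = Projectivization.mk K (lin B (runS st x)) hy)
    (P : ℙ K (K × K)) (n : ℕ) (hn : 4 ≤ n) (hmin : Function.minimalPeriod φ P = n) :
    ∀ r : ℕ, r.Prime → (r ∣ n → r ≤ q + 1) ∧ (r ≠ p → ∀ a : ℕ, r ^ a ∣ n → a ≤ (2 * st.length + 2) * q) := by
  obtain ⟨mm, hrun⟩ := hom_runS st (fun s hs => ⟨(hst s hs).1, hdeg s hs⟩)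
  have hn0 : (0 : ℤ) < n := by exact_mod_cast (by omega : 0 < n)
  set V : ℤ → K × K := fun i => (φ^[(i % n).toNat] P).rep with hV
  have hVne : ∀ i, V i ≠ 0 := fun i => Projectivization.rep_nonzero _
  have hVmk : ∀ i, Projectivization.mk K (V i) (hVne i) = φ^[(i % n).toNat] P := fun i =>
    Projectivization.mk_rep _
  have hfam : Fam n V := by
    constructor
    · intro i
      simp only [hV]
      rw [Int.add_emod_right]
    · intro i j
      rw [wd_eq_zero_iff (hVne i) (hVne j), hVmk, hVmk]
      have e1 : (i % n).toNat < n := by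
        have := Int.emod_lt_of_pos i hn0
        have h0 := Int.emod_nonneg i hn0.ne'
        omega
      have e2 : (j % n).toNat < n := by
        have := Int.emod_lt_of_pos j hn0
        have h0 := Int.emod_nonneg j hn0.ne'
        omega
      rw [Function.iterate_eq_iterate_iff_of_lt_minimalPeriod (by rw [hmin]; exact e1) (by rw [hmin]; exact e2)]
      have h0 := Int.emod_nonneg i hn0.ne'
      have h1 := Int.emod_nonneg j hn0.ne'
      constructor
      · intro h
        have : i % n = j % n := by omega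
        exact Int.emod_emod_of_dvd i (dvd_refl (n : ℤ)) |> fun _ => (Int.modEq_iff_dvd.mp (show j ≡ i [ZMOD n] from this.symm))
      · intro h
        have : j ≡ i [ZMOD n] := Int.modEq_iff_dvd.mpr h
        have h2 : j % n = i % n := this
        rw [h2]
  have hcyc : ∀ i, wd (lin B (runS st (V i))) (V (i + 1)) = 0 := by
    intro i
    have h1 : lin B (runS st (V i)) ≠ 0 := lin_ne_zero hB (hrun.2 _ (hVne i))
    rw [wd_eq_zero_iff h1 (hVne (i + 1)), ← hφ (V i) (hVne i) h1, hVmk, hVmk]
    rw [← Function.iterate_succ_apply' φ]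
    have hper : Function.IsPeriodicPt φ n P := hmin ▸ Function.isPeriodicPt_minimalPeriod φ P
    have h0 := Int.emod_nonneg i hn0.ne'
    have hlt := Int.emod_lt_of_pos i hn0
    by_cases hc : i % n + 1 = n
    · have e1 : (i % n).toNat + 1 = n := by omega
      have e2 : ((i + 1) % n).toNat = 0 := by
        have : (i + 1) % n = 0 := by
          rw [Int.add_emod]
          have : i % n = n - 1 := by omega
          rw [this]
          rcases Nat.lt_or_ge 1 n with h | h
          · have h1n : (1 : ℤ) % n = 1 := Int.emod_eq_of_lt (by norm_num) (by exact_mod_cast h)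
            rw [h1n]
            simp
          · omega
        rw [this]; rfl
      rw [Nat.succ_eq_add_one, e1, e2]
      exact hper
    · have e2 : ((i + 1) % n).toNat = (i % n).toNat + 1 := by
        have : (i + 1) % n = i % n + 1 := by
          rw [Int.add_emod]
          have h1n : (1 : ℤ) % n = 1 := Int.emod_eq_of_lt (by norm_num) (by omega)
          rw [h1n]
          exact Int.emod_eq_of_lt (by omega) (by omega)
        rw [this]; omega
      rw [e2]
  obtain ⟨c, rel, dd, hfull⟩ := s_geo3 K v p q e hv st B hst hB n V hn hfam hcyc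
  have hmain := s_comb K v p q e n st.length V c rel dd hv hp hn hfull
  exact hmain

end cyc

section main

variable {K : Type} [Field K]

/-- good places -/
def GP (K : Type) [Field K] (D p : ℕ) : Prop :=
  ∃ (v : AbsoluteValue K ℝ) (f e : ℕ), 1 ≤ f ∧ f ≤ D ∧ e ≤ D ∧ Loc v p (p ^ f) e

theorem Cmp.hom {b c j d : ℕ} {T : K × K → K × K} (h : Cmp K b c j d T) : Hom T d := by
  induction h with
  | linear A hA => exact hom_lin hA
  | power m hm h => exact hom_pw (by omega)
  | dickson l a hl h => exact hom_dkm hl.ne_zero a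
  | comp j k d e f g hf hg ihf ihg =>
    rw [mul_comm d e]
    exact ihf.comp ihg

theorem Cmp.iter {b c j d : ℕ} {T : K × K → K × K} (h : Cmp K b c j d T) (n : ℕ) :
    Cmp K b c (j * n) (d ^ n) T^[n] := by
  induction n with
  | zero =>
    have h1 : (T^[0] : K × K → K × K) = lin (1 : Matrix (Fin 2) (Fin 2) K) := by
      funext x
      rw [lin_one]
      rfl
    rw [h1, mul_zero, pow_zero]
    exact Cmp.linear 1 (by simp)
  | succ n ih =>
    rw [Function.iterate_succ, Nat.mul_succ, pow_succ]
    exact Cmp.comp _ _ _ _ _ _ ih h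

theorem actP_comp' {E : Type} [Field E] {f g : E × E → E × E} {m k : ℕ} (hf : Hom f m) (hg : Hom g k) :
    actP (f ∘ g) = actP f ∘ actP g := by
  funext P
  induction P using Projectivization.ind with
  | h x hx =>
    have hfg : Hom (f ∘ g) (k * m) := hf.comp hg
    rw [Function.comp_apply, actP_mk hg hx (hg.2 x hx), actP_mk hf (hg.2 x hx) (hf.2 _ (hg.2 x hx)),
      actP_mk hfg hx (hfg.2 x hx)]
    rfl

/-- **The period bound.** -/
theorem perG {D p₁ p₂ b c : ℕ} (h1 : p₁.Prime) (h2 : p₂.Prime) (hne : p₁ ≠ p₂) (hs₁ : Suit D p₁ b c)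
    (hs₂ : Suit D p₂ b c) (hK₁ : GP K D p₁) (hK₂ : GP K D p₂) {k j d : ℕ} {T : K × K → K × K}
    (h : Cmp K b c j d T) (hj : j ≤ k) (P : ℙ K (K × K))
    (hpre : ∃ m n : ℕ, m < n ∧ (actP T)^[m] P = (actP T)^[n] P) : (actP T)^[NP p₁ p₂ D k] P = P := by
  have hT := h.hom
  obtain ⟨st, B, hok, hB, hlen, hprod, hnf'⟩ := nf h
  have hdeg : ∀ s ∈ st, s.2.deg ≠ 0 := fun s hs => by have := (hok s hs).2.two; omega
  obtain ⟨v₁, f₁, e₁, hf₁, hf₁', he₁, hv₁⟩ := hK₁
  obtain ⟨v₂, f₂, e₂, hf₂, hf₂', he₂, hv₂⟩ := hK₂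
  have hst₁ := gsG hs₁ h1 hf₁ hf₁' he₁ hv₁ hok
  have hst₂ := gsG hs₂ h2 hf₂ hf₂' he₂ hv₂ hok
  have hnf : ∀ (x : K × K) (hx : x ≠ 0) (hy : lin B (runS st x) ≠ 0),
      actP T (Projectivization.mk K x hx) = Projectivization.mk K (lin B (runS st x)) hy := by
    intro x hx hy
    rw [actP_mk hT hx (hT.2 x hx)]
    simp only [hnf']
  have hinj : Function.Injective (actP T) := by
    intro P Q hPQ
    induction P using Projectivization.ind with
    | h x hx =>
    induction Q using Projectivization.ind with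
    | h y hy =>
    rw [actP_mk hT hx (hT.2 x hx), actP_mk hT hy (hT.2 y hy), ← wd_eq_zero_iff, hnf', hnf', wd_lin] at hPQ
    rw [← wd_eq_zero_iff hx hy]
    by_contra h4
    exact runS_inj v₁ st hst₁ x y h4 ((mul_eq_zero.mp hPQ).resolve_left hB)
  obtain ⟨m, n, hmn, hP⟩ := hpre
  obtain ⟨t, rfl⟩ := Nat.exists_eq_add_of_lt hmn
  have hper : (actP T)^[t + 1] P = P := by
    have : (actP T)^[m] ((actP T)^[t + 1] P) = (actP T)^[m] P := by
      rw [← Function.iterate_add_apply]
      exact hP.symm
    exact hinj.iterate m this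
  have hp : Function.IsPeriodicPt (actP T) (t + 1) P := hper
  have hmp : 1 ≤ Function.minimalPeriod (actP T) P := hp.minimalPeriod_pos (by omega)
  have hlenk : st.length ≤ k := by omega
  have hup : ∀ {p f : ℕ}, p.Prime → f ≤ D →
      (∀ r : ℕ, r.Prime → (r ∣ Function.minimalPeriod (actP T) P → r ≤ p ^ f + 1) ∧
        (r ≠ p → ∀ a : ℕ, r ^ a ∣ Function.minimalPeriod (actP T) P → a ≤ (2 * st.length + 2) * p ^ f)) →
      (∀ r : ℕ, r.Prime → (r ∣ Function.minimalPeriod (actP T) P → r ≤ p ^ D + 1) ∧
        (r ≠ p → ∀ a : ℕ, r ^ a ∣ Function.minimalPeriod (actP T) P → a ≤ (2 * k + 2) * p ^ D)) := by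
    intro p f hp hfD hmain r hr
    have hqle : p ^ f ≤ p ^ D := Nat.pow_le_pow_right hp.pos hfD
    refine ⟨fun h => ((hmain r hr).1 h).trans (by omega), fun h a ha => ((hmain r hr).2 h a ha).trans ?_⟩
    exact Nat.mul_le_mul (by omega) hqle
  have hdvd : Function.minimalPeriod (actP T) P ∣ NP p₁ p₂ D k := by
    apply dvd_NP hne hmp
    · intro h4
      exact hup h1 hf₁' (cycG hv₁ h1 hst₁ hdeg hB hnf P _ h4 rfl)
    · intro h4
      exact hup h2 hf₂' (cycG hv₂ h2 hst₂ hdeg hB hnf P _ h4 rfl)
  exact (Function.isPeriodicPt_iff_minimalPeriod_dvd).mpr hdvd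

/-- fixed points -/
theorem fixG [CharZero K] {b c j d : ℕ} {T : K × K → K × K} (h : Cmp K b c j d T) (hj : 1 ≤ j) :
    {P : ℙ K (K × K) | actP T P = P}.Finite ∧ {P : ℙ K (K × K) | actP T P = P}.ncard ≤ d + 2 := by
  have hT := h.hom
  obtain ⟨st, B, hok, hB, hlen, hprod, hnf⟩ := nf h
  have hst : st ≠ [] := by
    rintro rfl
    simp at hlen
    omega
  set F : Set K := {x : K | wd (lin B (runS st (x, 1))) (x, 1) = 0} with hF
  have hFc : F.Finite ∧ F.ncard ≤ d + 1 := by
    apply finite_of_card_le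
    intro S hS
    have := s_cnt3 K st B (fun s hs => ⟨(hok s hs).1, (hok s hs).2.two⟩) hB hst S (fun x hx => hS hx)
    rwa [hprod] at this
  have h10 : ((1 : K), (0 : K)) ≠ 0 := by simp
  have hx1 : ∀ x : K, ((x : K), (1 : K)) ≠ 0 := fun x => by simp
  have hsub : {P : ℙ K (K × K) | actP T P = P} ⊆
      insert (Projectivization.mk K ((1 : K), (0 : K)) h10)
        ((fun x : K => Projectivization.mk K (x, (1 : K)) (hx1 x)) '' F) := by
    intro P hP
    induction P using Projectivization.ind with
    | h y hy =>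
    rw [Set.mem_insert_iff]
    by_cases h2 : y.2 = 0
    · left
      rw [← wd_eq_zero_iff hy h10]
      unfold wd
      simp [h2]
    · right
      have hyx : Projectivization.mk K y hy = Projectivization.mk K (y.1 / y.2, (1 : K)) (hx1 _) := by
        rw [← wd_eq_zero_iff hy (hx1 _)]
        unfold wd
        field_simp
        ring
      refine ⟨y.1 / y.2, ?_, hyx.symm⟩
      have hP' : actP T (Projectivization.mk K y hy) = Projectivization.mk K y hy := hP
      rw [hyx, actP_mk hT (hx1 _) (hT.2 _ (hx1 _)), ← wd_eq_zero_iff, hnf] at hP'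
      exact hP'
  have hfin : (insert (Projectivization.mk K ((1 : K), (0 : K)) h10)
        ((fun x : K => Projectivization.mk K (x, (1 : K)) (hx1 x)) '' F)).Finite :=
    (hFc.1.image _).insert _
  refine ⟨hfin.subset hsub, ?_⟩
  calc _ ≤ _ := Set.ncard_le_ncard hsub hfin
    _ ≤ ((fun x : K => Projectivization.mk K (x, (1 : K)) (hx1 x)) '' F).ncard + 1 := Set.ncard_insert_le _ _
    _ ≤ F.ncard + 1 := by
        have := Set.ncard_image_le (f := fun x : K => Projectivization.mk K (x, (1 : K)) (hx1 x)) hFc.1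
        omega
    _ ≤ d + 2 := by have := hFc.2; omega

/-- matrices as linear equivalences -/
noncomputable def mEq (A : Matrix (Fin 2) (Fin 2) K) (hA : A.det ≠ 0) : (K × K) ≃ₗ[K] (K × K) where
  toFun x := lin A x
  invFun x := lin A⁻¹ x
  map_add' x y := by
    unfold lin
    apply Prod.ext
    · simp only [Prod.fst_add, Prod.snd_add]; ring
    · simp only [Prod.fst_add, Prod.snd_add]; ring
  map_smul' a x := lin_smul A a x
  left_inv x := by
    beta_reduce
    rw [← lin_mul, Matrix.nonsing_inv_mul A (isUnit_iff_ne_zero.mpr hA), lin_one]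
  right_inv x := by
    beta_reduce
    rw [← lin_mul, Matrix.mul_nonsing_inv A (isUnit_iff_ne_zero.mpr hA), lin_one]

/-- compositions without Dickson maps -/
theorem Cmp.powMoeb {b j d : ℕ} {T : K × K → K × K} (h : Cmp K b 0 j d T) : PowMoeb b j (actP T) := by
  induction h with
  | linear A hA =>
    have e : actP (lin A) = fun P => P.map (mEq A hA).toLinearMap (mEq A hA).injective := by
      funext P
      induction P using Projectivization.ind with
      | h x hx =>
        rw [actP_mk (hom_lin hA) hx (lin_ne_zero hA hx), Projectivization.map_mk]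
        rfl
    rw [e]
    exact PowMoeb.mobius _
  | power m hm h =>
    have e : actP (pw m : K × K → K × K) = powP m := by
      funext P
      induction P using Projectivization.ind with
      | h x hx =>
        rw [actP_mk (hom_pw (by omega)) hx (pw_ne_zero (by omega) hx), powP_mk (by omega) hx]
    rw [e]
    exact PowMoeb.power m hm h
  | dickson l a hl h =>
    exfalso
    rw [Nat.coprime_zero_right] at h
    exact hl.one_lt.ne' h
  | comp j k d e f g hf hg ihf ihg =>
    rw [actP_comp' hf.hom hg.hom]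
    exact PowMoeb.comp _ _ _ _ ihf ihg

end main

end Pool.Agent.U965.ET
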