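import Pool.Agent.U965.ET.Plc2
import Pool.Agent.N236.UR.Top6

/-!
# Fields of bounded local degree (helper965)
-/

set_option autoImplicit false

namespace Pool.Agent.U965.ET

open Pool.Agent.N236.UB Pool.Agent.N236.UR
open scoped TensorProduct

/-- `K` embeds, for every prime `p`, into an extension of the field of p-adic numbers of degree at most
`D`. -/
def LocDeg (K : Type) [Field K] (D : ℕ) : Prop :=
  ∀ (p : ℕ) [Fact p.Prime], ∃ (E : Type) (_ : Field E) (_ : Algebra ℚ_[p] E),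
    FiniteDimensional ℚ_[p] E ∧ Module.finrank ℚ_[p] E ≤ D ∧ Nonempty (K →+* E)

theorem LocDeg.mono {K : Type} [Field K] {D D' : ℕ} (h : LocDeg K D) (hD : D ≤ D') : LocDeg K D' := by
  intro p _
  obtain ⟨E, i1, i2, h1, h2, h3⟩ := h p
  exact ⟨E, i1, i2, h1, h2.trans hD, h3⟩

/-- composita -/
theorem tensor_emb (K E F : Type) [Field K] [Field E] [Field F] [Algebra K E] [Algebra K F]
    [FiniteDimensional K F] :
    ∃ (E' : Type) (_ : Field E') (_ : Algebra E E'), FiniteDimensional E E' ∧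
      Module.finrank E E' ≤ Module.finrank K F ∧ Nonempty (F →+* E') := by
  obtain ⟨m, hm⟩ := Ideal.exists_maximal (E ⊗[K] F)
  letI : Field ((E ⊗[K] F) ⧸ m) := Ideal.Quotient.field m
  have hsurj : Function.Surjective (Ideal.Quotient.mkₐ E m).toLinearMap := Ideal.Quotient.mkₐ_surjective E m
  refine ⟨(E ⊗[K] F) ⧸ m, inferInstance, Ideal.Quotient.algebra E, ?_, ?_, ?_⟩
  · exact Module.Finite.of_surjective (Ideal.Quotient.mkₐ E m).toLinearMap hsurj
  · rw [← Module.finrank_baseChange (R := E) (S := K) (M' := F)]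
    exact LinearMap.finrank_le_finrank_of_surjective (f := (Ideal.Quotient.mkₐ E m).toLinearMap) hsurj
  · exact ⟨(Ideal.Quotient.mk m).comp
      (Algebra.TensorProduct.includeRight : F →ₐ[K] E ⊗[K] F).toRingHom⟩

/-- finite extensions -/
theorem LocDeg.ext {K : Type} [Field K] {D : ℕ} (h : LocDeg K D) (F : Type) [Field F] [Algebra K F]
    [FiniteDimensional K F] : LocDeg F (D * Module.finrank K F) := by
  intro p hp
  obtain ⟨E, i1, i2, h1, h2, ⟨j⟩⟩ := h p
  letI := j.toAlgebra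
  obtain ⟨E', i3, i4, h3, h4, h5⟩ := tensor_emb K E F
  letI : Algebra ℚ_[p] E' := ((algebraMap E E').comp (algebraMap ℚ_[p] E)).toAlgebra
  haveI : IsScalarTower ℚ_[p] E E' := IsScalarTower.of_algebraMap_eq fun x => rfl
  refine ⟨E', inferInstance, inferInstance, FiniteDimensional.trans ℚ_[p] E E', ?_, h5⟩
  rw [← Module.finrank_mul_finrank ℚ_[p] E E']
  exact Nat.mul_le_mul h2 h4

/-- places -/
theorem LocDeg.plAll {K : Type} [Field K] {D : ℕ} (h : LocDeg K D) : PlAll K D := by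
  intro F _ _ _ M hM p hp
  haveI : Fact p.Prime := ⟨hp⟩
  obtain ⟨E, i1, i2, h1, h2, ⟨j⟩⟩ := h.ext F p
  obtain ⟨v, f, e, hf1, hf2, hv⟩ := loc_of_emb (p := p) j
  exact ⟨v, f, e, hf1, (hf2.trans h2).trans hM, hv⟩

theorem locDeg_rat : LocDeg ℚ 1 := fun p _ =>
  ⟨ℚ_[p], inferInstance, inferInstance, inferInstance, (Module.finrank_self _).le, ⟨algebraMap ℚ ℚ_[p]⟩⟩

/-- number fields -/
theorem locDeg_nf (K : Type) [Field K] [NumberField K] {D : ℕ} (hD : Module.finrank ℚ K ≤ D) :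
    LocDeg K D := (locDeg_rat.ext K).mono (by rw [one_mul]; exact hD)

end Pool.Agent.U965.ET
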