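import Pool.Agent.U965.ET.Plc3
import Pool.Agent.N236.UB.Main

/-!
# Henon maps over fields with one place (helper965)
-/

set_option autoImplicit false

open Polynomial

namespace Pool.Agent.U965.ET

open Pool.Agent.N236.UB

section one

/-- `K` embeds into an extension of the p-adic numbers of degree at most `D` -/
def LocP (K : Type) [Field K] (p : ℕ) [Fact p.Prime] (D : ℕ) : Prop :=
  ∃ (E : Type) (_ : Field E) (_ : Algebra ℚ_[p] E),
    FiniteDimensional ℚ_[p] E ∧ Module.finrank ℚ_[p] E ≤ D ∧ Nonempty (K →+* E)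

theorem LocP.ext {K : Type} [Field K] {p D B : ℕ} [hp : Fact p.Prime] (h : LocP K p D) (F : Type) [Field F]
    [Algebra K F] [FiniteDimensional K F] (hB : Module.finrank K F ≤ B) : LocP F p (D * B) := by
  obtain ⟨E, i1, i2, h1, h2, ⟨j⟩⟩ := h
  letI := j.toAlgebra
  obtain ⟨E', i3, i4, h3, h4, h5⟩ := tensor_emb K E F
  letI : Algebra ℚ_[p] E' := ((algebraMap E E').comp (algebraMap ℚ_[p] E)).toAlgebra
  haveI : IsScalarTower ℚ_[p] E E' := IsScalarTower.of_algebraMap_eq fun x => rfl
  refine ⟨E', inferInstance, inferInstance, FiniteDimensional.trans ℚ_[p] E E', ?_, h5⟩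
  rw [← Module.finrank_mul_finrank ℚ_[p] E E']
  exact Nat.mul_le_mul h2 (h4.trans hB)

/-- the class of polynomials -/
inductive EP {K : Type} [Field K] (b c : ℕ) : K[X] → Prop
  | affine (a e : K) (ha : a ≠ 0) : EP b c (C a * X + C e)
  | power (m : ℕ) (hm : 1 ≤ m) (h : Nat.Coprime m b) : EP b c (X ^ m)
  | dickson (l : ℕ) (a : K) (hl : l.Prime) (h : Nat.Coprime l c) : EP b c (dickson 1 a l)
  | comp (F G : K[X]) (hF : EP b c F) (hG : EP b c G) : EP b c (F.comp G)

/-- suitable numbers -/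
def Su (p M b c : ℕ) : Prop :=
  p ∣ b ∧ p ∣ c ∧ ∀ f, 1 ≤ f → f ≤ M → p ^ f - 1 ∣ b ∧ p ^ (2 * f) - 1 ∣ c

theorem sepE {K L : Type} [Field K] [Field L] (i : K →+* L) (v : AbsoluteValue L ℝ) {p f e M b c : ℕ}
    (hp : p.Prime) (hv : Loc v p (p ^ f) e) (hs : Su p M b c) (hf1 : 1 ≤ f) (hfM : f ≤ M) {F : K[X]}
    (h : EP b c F) : Sep v (F.map i) := by
  induction h with
  | affine a b ha =>
    have := (s_sepc L v p (p ^ f) e hv).1 (i a) (i b)
    simpa using this
  | power m hm h =>
    rw [Polynomial.map_pow, Polynomial.map_X]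
    exact s_pow L v p (p ^ f) e m hv hp hm
      ((Nat.Prime.coprime_iff_not_dvd hp).1 (Nat.Coprime.coprime_dvd_right hs.1 h).symm)
      (Nat.Coprime.coprime_dvd_right (hs.2.2 f hf1 hfM).1 h)
  | dickson l a hl h =>
    rw [map_dickson]
    refine s_dicv L v p (p ^ f) e l (i a) hv hp hl
      ((Nat.Prime.coprime_iff_not_dvd hp).1 (Nat.Coprime.coprime_dvd_right hs.2.1 h).symm) ?_
    rw [← pow_mul, mul_comm f 2]
    exact Nat.Coprime.coprime_dvd_right (hs.2.2 f hf1 hfM).2 h
  | comp F G hF hG ihF ihG =>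
    rw [Polynomial.map_comp]
    exact (s_sepc L v p (p ^ f) e hv).2 _ _ ihF ihG

/-- the period of sequences over a field with a place -/
theorem perE {K L : Type} [Field K] [Field L] (i : K →+* L) {p M b c : ℕ} [hp : Fact p.Prime]
    (hL : LocP L p M) (hs : Su p M b c) {F : K[X]} (h : EP b c F) (δ : L) (z : ℤ → L) (N : ℕ)
    (hN : 1 ≤ N) (hz : Per z N) (hr : Rec (F.map i) δ z) : Per z (NN p M) := by
  obtain ⟨E, i1, i2, h1, h2, ⟨j⟩⟩ := hL
  obtain ⟨v, f, e, hf1, hf2, he, hv⟩ := loc_of_emb' (p := p) j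
  have hS := sepE i v hp.1 hv hs hf1 (hf2.trans h2) h
  exact per_dvd (per_local s_sepc s_int s_per1 s_per2 v p (p ^ f) e hv hp.1 _ δ hS z N hN hz hr)
    (N0_dvd_NN hf1 (hf2.trans h2) (he.trans h2))

end one

section henon

variable {K : Type} [Field K] {p D B b c : ℕ} [hp : Fact p.Prime]

theorem henon_seq (hK : LocP K p D) (hs : Su p (D * B) b c) {F : K[X]} (h : EP b c F) (δ : K)
    (P : AlgebraicClosure K × AlgebraicClosure K)
    (hper : ∃ N : ℕ, 1 ≤ N ∧ Function.IsPeriodicPt (henon F δ) N P)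
    (hB : Module.finrank K (IntermediateField.adjoin K {P.1, P.2}) ≤ B) :
    ∃ z : ℤ → AlgebraicClosure K, Per z (NN p (D * B)) ∧
      Rec (F.map (algebraMap K (AlgebraicClosure K))) (algebraMap K (AlgebraicClosure K) δ) z ∧
      ∀ m : ℕ, z m = orb F δ P m := by
  obtain ⟨N, hN, hper⟩ := hper
  set E : IntermediateField K (AlgebraicClosure K) := IntermediateField.adjoin K {P.1, P.2} with hE
  have hfin : FiniteDimensional K E := by
    apply IntermediateField.finiteDimensional_adjoin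
    intro x _
    exact (Algebra.IsAlgebraic.isAlgebraic x).isIntegral
  have h1 : P.1 ∈ E := IntermediateField.subset_adjoin K _ (by simp)
  have h2 : P.2 ∈ E := IntermediateField.subset_adjoin K _ (by simp)
  have hmem := orb_mem F δ E P h1 h2
  have hop := orb_per F δ hper
  set x : ℕ → E := fun m => ⟨orb F δ P m, hmem m⟩ with hx
  have hxp : ∀ m, x (m + N) = x m := by
    intro m
    apply Subtype.ext
    exact hop m
  have hxr : ∀ m, x (m + 2) + algebraMap K E δ * x m = (F.map (algebraMap K E)).eval (x (m + 1)) := by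
    intro m
    apply Subtype.ext
    have := orb_rec F δ P m
    rw [eval_map_algebraMap] at this ⊢
    have e : ((aeval (x (m + 1)) F : E) : AlgebraicClosure K) = aeval (orb F δ P (m + 1)) F :=
      (Polynomial.aeval_algebraMap_apply (AlgebraicClosure K) (x (m + 1)) F).symm
    rw [e]
    simpa using this
  have hrecE := two_rec hN hxp _ _ hxr
  have hperE := perE (algebraMap K E) (hK.ext E hB) hs h (algebraMap K E δ) _ N hN (two_per x N) hrecE
  refine ⟨two (orb F δ P) N, ?_, two_rec hN hop _ _ (orb_rec F δ P), fun m => two_eq hN hop m m rfl⟩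
  intro n
  have := congrArg (Subtype.val) (hperE n)
  exact this

theorem henon_fix (hK : LocP K p D) (hs : Su p (D * B) b c) {F : K[X]} (h : EP b c F) (δ : K)
    (P : AlgebraicClosure K × AlgebraicClosure K)
    (hper : ∃ N : ℕ, 1 ≤ N ∧ Function.IsPeriodicPt (henon F δ) N P)
    (hB : Module.finrank K (IntermediateField.adjoin K {P.1, P.2}) ≤ B) :
    (henon F δ)^[NN p (D * B)] P = P := by
  obtain ⟨z, hz, -, hzo⟩ := henon_seq hK hs h δ P hper hB
  have key : ∀ m : ℕ, orb F δ P (m + NN p (D * B)) = orb F δ P m := by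
    intro m
    rw [← hzo, ← hzo]
    have := hz m
    push_cast
    exact this
  apply Prod.ext
  · have k0 := key 0
    rw [zero_add, orb_zero] at k0
    exact k0
  · rw [orb_snd, add_comm, key 1]
    exact orb_one F δ P

theorem henon_cnt (hK : LocP K p D) (hs : Su p (D * B) b c) {F : K[X]} (hd : 2 ≤ F.natDegree)
    (h : EP b c F) (δ : K) :
    {P : AlgebraicClosure K × AlgebraicClosure K |
        (∃ N : ℕ, 1 ≤ N ∧ Function.IsPeriodicPt (henon F δ) N P) ∧
        Module.finrank K (IntermediateField.adjoin K {P.1, P.2}) ≤ B}.Finite ∧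
      {P : AlgebraicClosure K × AlgebraicClosure K |
        (∃ N : ℕ, 1 ≤ N ∧ Function.IsPeriodicPt (henon F δ) N P) ∧
        Module.finrank K (IntermediateField.adjoin K {P.1, P.2}) ≤ B}.ncard ≤
          F.natDegree ^ NN p (D * B) := by
  set Ω := AlgebraicClosure K
  set T : Set (ℤ → Ω) := {z : ℤ → Ω | Per z (NN p (D * B)) ∧ Rec (F.map (algebraMap K Ω)) (algebraMap K Ω δ) z}
    with hT
  have hfd : (F.map (algebraMap K Ω)).natDegree = F.natDegree := by rw [natDegree_map]
  have hfixT := s_fix Ω (F.map (algebraMap K Ω)) (algebraMap K Ω δ) (NN p (D * B)) (by omega) (NN_pos hp.1)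
  rw [hfd] at hfixT
  have hsub : {P : Ω × Ω |
        (∃ N : ℕ, 1 ≤ N ∧ Function.IsPeriodicPt (henon F δ) N P) ∧
        Module.finrank K (IntermediateField.adjoin K {P.1, P.2}) ≤ B} ⊆ (fun z : ℤ → Ω => (z 0, z 1)) '' T := by
    rintro P ⟨hper, hB⟩
    obtain ⟨z, hz, hr, hzo⟩ := henon_seq hK hs h δ P hper hB
    refine ⟨z, ⟨hz, hr⟩, ?_⟩
    have e0 : z 0 = P.1 := by
      have := hzo 0
      rw [orb_zero] at this
      exact_mod_cast this
    have e1 : z 1 = P.2 := by
      have := hzo 1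
      rw [orb_one] at this
      exact_mod_cast this
    simp only [e0, e1]
  have hfinT : T.Finite := hfixT.1
  refine ⟨(hfinT.image _).subset hsub, ?_⟩
  calc _ ≤ ((fun z : ℤ → Ω => (z 0, z 1)) '' T).ncard := Set.ncard_le_ncard hsub (hfinT.image _)
    _ ≤ T.ncard := Set.ncard_image_le hfinT
    _ ≤ _ := hfixT.2

end henon

end Pool.Agent.U965.ET
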