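import Pool.Agent.N236.UB.Def

/-!
# Places of fields embedded in finite extensions of the p-adic numbers (helper965)
-/

set_option autoImplicit false

open scoped Finset

namespace Pool.Agent.U965.ET

open Pool.Agent.N236.UB

section abs

variable {E : Type} [Field E] (V : AbsoluteValue E ℝ)

theorem sum_lt (hna : ∀ x y, V (x + y) ≤ max (V x) (V y)) {ι : Type} (s : Finset ι) (f : ι → E)
    {r : ℝ} (hr : 0 < r) (h : ∀ i ∈ s, V (f i) < r) : V (∑ i ∈ s, f i) < r := by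
  classical
  induction s using Finset.induction_on with
  | empty => simpa using hr
  | insert a s ha ih =>
    rw [Finset.sum_insert ha]
    refine lt_of_le_of_lt (hna _ _) (max_lt (h a (Finset.mem_insert_self a s)) (ih ?_))
    intro i hi
    exact h i (Finset.mem_insert_of_mem hi)

variable {p : ℕ} [hp : Fact p.Prime] [Algebra ℚ_[p] E]

/-- integers approximate p-adic integers -/
theorem approx (b : ℚ_[p]) (hb : ‖b‖ ≤ 1) : ∃ c : ℤ, ‖b - c‖ < 1 := by
  refine ⟨(PadicInt.zmodRepr (⟨b, hb⟩ : ℤ_[p]) : ℤ), ?_⟩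
  have h := PadicInt.norm_sub_zmodRepr_lt_one (⟨b, hb⟩ : ℤ_[p])
  rw [PadicInt.norm_def] at h
  push_cast at h ⊢
  exact h

theorem int_small {c : ℤ} (h : (p : ℤ) ∣ c) : ‖(c : ℚ_[p])‖ < 1 :=
  Padic.norm_intCast_lt_one_iff.2 h

/-- independent residues -/
theorem indep_res (hna : ∀ x y, V (x + y) ≤ max (V x) (V y)) (hext : ∀ a : ℚ_[p], V (algebraMap ℚ_[p] E a) = ‖a‖)
    {ι : Type} [Fintype ι] (x : ι → E) (hx : ∀ i, V (x i) ≤ 1)
    (h : ∀ c : ι → ℤ, V (∑ i, (c i : E) * x i) < 1 → ∀ i, (p : ℤ) ∣ c i) : LinearIndependent ℚ_[p] x := by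
  classical
  rw [Fintype.linearIndependent_iff]
  intro a ha
  by_contra hcon
  push Not at hcon
  obtain ⟨i0, hi0⟩ := hcon
  obtain ⟨j, -, hj⟩ := Finset.exists_max_image Finset.univ (fun i => ‖a i‖) ⟨i0, Finset.mem_univ _⟩
  have hj0 : a j ≠ 0 := by
    intro h0
    have := hj i0 (Finset.mem_univ _)
    rw [h0, norm_zero] at this
    exact hi0 (norm_le_zero_iff.1 this)
  have hjn : 0 < ‖a j‖ := norm_pos_iff.2 hj0
  have hb : ∀ i, ‖a i / a j‖ ≤ 1 := by
    intro i
    rw [norm_div]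
    exact (div_le_one hjn).2 (hj i (Finset.mem_univ _))
  choose c hc using fun i => approx (a i / a j) (hb i)
  have e0 : ∑ i, algebraMap ℚ_[p] E (a i / a j) * x i = 0 := by
    have h1 : (algebraMap ℚ_[p] E (a j))⁻¹ * ∑ i, a i • x i = 0 := by rw [ha, mul_zero]
    rw [← h1, Finset.mul_sum]
    refine Finset.sum_congr rfl fun i _ => ?_
    rw [Algebra.smul_def, map_div₀]
    ring
  have e1 : ∑ i, (c i : E) * x i = ∑ i, (algebraMap ℚ_[p] E (c i - a i / a j)) * x i := by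
    have h2 : ∀ i, (algebraMap ℚ_[p] E (c i - a i / a j)) * x i =
        (c i : E) * x i - algebraMap ℚ_[p] E (a i / a j) * x i := by
      intro i
      rw [map_sub, map_intCast]
      ring
    rw [Finset.sum_congr rfl fun i _ => h2 i, Finset.sum_sub_distrib, e0, sub_zero]
  have h3 : V (∑ i, (c i : E) * x i) < 1 := by
    rw [e1]
    refine sum_lt V hna _ _ one_pos fun i _ => ?_
    rw [map_mul, hext]
    have h4 : ‖(c i : ℚ_[p]) - a i / a j‖ < 1 := by
      rw [norm_sub_rev]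
      exact hc i
    calc _ ≤ ‖(c i : ℚ_[p]) - a i / a j‖ * 1 := mul_le_mul_of_nonneg_left (hx i) (norm_nonneg _)
      _ < 1 := by rw [mul_one]; exact h4
  have h5 := h c h3 j
  have h6 := hc j
  rw [div_self hj0] at h6
  have h7 := int_small (p := p) h5
  have h8 : ‖(1 : ℚ_[p])‖ ≤ max ‖(1 : ℚ_[p]) - c j‖ ‖(c j : ℚ_[p])‖ := by
    have := Padic.nonarchimedean ((1 : ℚ_[p]) - ((c j : ℤ) : ℚ_[p])) ((c j : ℤ) : ℚ_[p])
    rwa [sub_add_cancel] at this
  rw [norm_one] at h8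
  exact absurd h8 (not_le.2 (max_lt h6 h7))

/-- independent values -/
theorem indep_val (hna : ∀ x y, V (x + y) ≤ max (V x) (V y)) (hext : ∀ a : ℚ_[p], V (algebraMap ℚ_[p] E a) = ‖a‖)
    {ι : Type} [Fintype ι] (x : ι → E) (hx : ∀ i, x i ≠ 0)
    (h : ∀ i j : ι, i ≠ j → ∀ a b : ℚ_[p], a ≠ 0 → b ≠ 0 → ‖a‖ * V (x i) ≠ ‖b‖ * V (x j)) :
    LinearIndependent ℚ_[p] x := by
  classical
  rw [Fintype.linearIndependent_iff]
  intro a ha
  by_contra hcon
  push Not at hcon
  obtain ⟨i0, hi0⟩ := hcon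
  obtain ⟨j, -, hj⟩ := Finset.exists_max_image Finset.univ (fun i => ‖a i‖ * V (x i)) ⟨i0, Finset.mem_univ _⟩
  have hpos : 0 < ‖a i0‖ * V (x i0) := mul_pos (norm_pos_iff.2 hi0) (V.pos (hx i0))
  have hjpos : 0 < ‖a j‖ * V (x j) := lt_of_lt_of_le hpos (hj i0 (Finset.mem_univ _))
  have haj : a j ≠ 0 := by
    intro h0
    rw [h0, norm_zero, zero_mul] at hjpos
    exact lt_irrefl _ hjpos
  have e1 : a j • x j = - ∑ i ∈ Finset.univ.erase j, a i • x i := by
    rw [← Finset.add_sum_erase _ _ (Finset.mem_univ j)] at ha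
    exact eq_neg_of_add_eq_zero_left ha
  have h1 : V (∑ i ∈ Finset.univ.erase j, a i • x i) < ‖a j‖ * V (x j) := by
    refine sum_lt V hna _ _ hjpos fun i hi => ?_
    rw [Algebra.smul_def, map_mul, hext]
    rcases eq_or_ne (a i) 0 with h0 | h0
    · rw [h0, norm_zero, zero_mul]
      exact hjpos
    · exact lt_of_le_of_ne (hj i (Finset.mem_univ _)) (h i j (Finset.ne_of_mem_erase hi) _ _ h0 haj)
  have h2 : V (a j • x j) = ‖a j‖ * V (x j) := by rw [Algebra.smul_def, map_mul, hext]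
  rw [← h2, e1, V.map_neg] at h1
  exact lt_irrefl _ h1

end abs

section place

variable {E : Type} [Field E] {p : ℕ} [hp : Fact p.Prime] [Algebra ℚ_[p] E] [FiniteDimensional ℚ_[p] E]

/-- the extension of the p-adic absolute value -/
theorem exists_abs (E : Type) [Field E] (p : ℕ) [hp : Fact p.Prime] [Algebra ℚ_[p] E] [FiniteDimensional ℚ_[p] E] :
    ∃ V : AbsoluteValue E ℝ, (∀ x y, V (x + y) ≤ max (V x) (V y)) ∧
      ∀ a : ℚ_[p], V (algebraMap ℚ_[p] E a) = ‖a‖ := by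
  have halg : Algebra.IsAlgebraic ℚ_[p] E := Algebra.IsAlgebraic.of_finite _ _
  let W := spectralMulAlgNorm ℚ_[p] E
  refine ⟨⟨⟨W, map_mul W⟩, fun x => apply_nonneg W x, fun x => ?_, fun x y => map_add_le_add W x y⟩, ?_, ?_⟩
  · exact map_eq_zero_iff_eq_zero W
  · intro x y
    exact isNonarchimedean_spectralNorm (K := ℚ_[p]) (L := E) x y
  · intro a
    exact spectralNorm_extends (K := ℚ_[p]) (L := E) a

end place

end Pool.Agent.U965.ET
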