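import Pool.Agent.U965.ET.Fld

/-!
# Places of fields embedded in finite extensions of the p-adic numbers, part 3 (helper965)
-/

set_option autoImplicit false

namespace Pool.Agent.U965.ET

open Pool.Agent.N236.UB

theorem pow_right_injective_of_lt {x : ℝ} (h0 : 0 < x) (h1 : x < 1) {m n : ℕ} (h : x ^ m = x ^ n) : m = n :=
  (pow_right_strictAnti₀ h0 h1).injective h

section place

variable {E : Type} [Field E] {p : ℕ} [hp : Fact p.Prime] [Algebra ℚ_[p] E] [FiniteDimensional ℚ_[p] E]

/-- **The place**, with a bound for the ramification index. -/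
theorem loc_of_emb' {F : Type} [Field F] (i : F →+* E) :
    ∃ (v : AbsoluteValue F ℝ) (f e : ℕ), 1 ≤ f ∧ f ≤ Module.finrank ℚ_[p] E ∧
      e ≤ Module.finrank ℚ_[p] E ∧ Loc v p (p ^ f) e := by
  classical
  obtain ⟨V, hna, hext⟩ := exists_abs E p
  set v : AbsoluteValue F ℝ := V.comp i.injective with hv
  have hvx : ∀ x, v x = V (i x) := fun x => rfl
  have hvna : ∀ x y, v (x + y) ≤ max (v x) (v y) := by
    intro x y
    rw [hvx, hvx, hvx, map_add]
    exact hna _ _
  have hp1 : (1 : ℝ) < p := by exact_mod_cast hp.1.one_lt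
  have hp0 : (0 : ℝ) < p := by linarith
  have hvp : v (p : F) = (p : ℝ)⁻¹ := by
    rw [hvx, map_natCast]
    have := hext (p : ℚ_[p])
    rw [map_natCast] at this
    rw [this, Padic.norm_p]
  have hvp1 : v (p : F) < 1 := by
    rw [hvp]
    exact inv_lt_one_of_one_lt₀ hp1
  have hvZ : ∀ c : ℤ, v (c : F) = ‖(c : ℚ_[p])‖ := by
    intro c
    rw [hvx, map_intCast]
    have := hext (c : ℚ_[p])
    rwa [map_intCast] at this
  -- the uniformizer
  have hfin := vals_finite (p := p) i V hna hext
  set S := {r : ℝ | (p : ℝ)⁻¹ < r ∧ r ≤ 1 ∧ ∃ x : F, V (i x) = r} with hS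
  set T := {r : ℝ | (p : ℝ)⁻¹ ≤ r ∧ r < 1 ∧ ∃ x : F, v x = r} with hT
  have hTfin : T.Finite := by
    refine (hfin.union (Set.finite_singleton (p : ℝ)⁻¹)).subset ?_
    rintro r ⟨h1, h2, h3⟩
    rcases h1.lt_or_eq with h | h
    · exact Or.inl ⟨h, h2.le, h3⟩
    · exact Or.inr h.symm
  have hTne : T.Nonempty := ⟨(p : ℝ)⁻¹, le_rfl, hvp ▸ hvp1, (p : F), hvp⟩
  obtain ⟨r, hrT, hrmax⟩ := Set.exists_max_image T id hTfin hTne
  obtain ⟨hr1, hr2, w, hw⟩ := hrT
  have hw0 : 0 < v w := by
    rw [hw]
    exact lt_of_lt_of_le (inv_pos.2 hp0) hr1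
  have hw1 : v w < 1 := by rw [hw]; exact hr2
  have hwmax : ∀ x : F, v x < 1 → v x ≤ v w := by
    intro x hx
    rw [hw]
    by_cases h : (p : ℝ)⁻¹ ≤ v x
    · exact hrmax _ ⟨h, hx, x, rfl⟩
    · exact (not_le.1 h).le.trans hr1
  have hex : ∃ e : ℕ, v w ^ e ≤ v (p : F) := by
    obtain ⟨e, he⟩ := exists_pow_lt_of_lt_one (hvp ▸ inv_pos.2 hp0 : 0 < v (p : F)) hw1
    exact ⟨e, he.le⟩
  obtain ⟨e, he, hemin⟩ : ∃ e : ℕ, v w ^ e ≤ v (p : F) ∧ ∀ j < e, v (p : F) < v w ^ j :=
    ⟨Nat.find hex, Nat.find_spec hex, fun j hj => not_le.1 (Nat.find_min hex hj)⟩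
  have hen : e ≤ Module.finrank ℚ_[p] E := by
    have hli : LinearIndependent ℚ_[p] (fun j : Fin e => i (w ^ (j : ℕ))) := by
      apply indep_val V hna hext
      · intro j h0
        have h1 : v (w ^ (j : ℕ)) = 0 := by rw [hvx, h0, map_zero]
        rw [map_pow] at h1
        exact absurd h1 (pow_pos hw0 _).ne'
      · intro j l hjl a b ha hb h
        have e1 : ∀ j : Fin e, V (i (w ^ (j : ℕ))) = v w ^ (j : ℕ) := fun j => by
          rw [← hvx, map_pow]
        rw [e1, e1, Padic.norm_eq_zpow_neg_valuation ha, Padic.norm_eq_zpow_neg_valuation hb] at h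
        have hlo : ∀ j : Fin e, (p : ℝ)⁻¹ < v w ^ (j : ℕ) := fun j => by
          rw [← hvp]
          exact hemin j j.2
        have hhi : ∀ j : Fin e, v w ^ (j : ℕ) ≤ 1 := fun j => pow_le_one₀ hw0.le hw1.le
        have h1 := zp_aux hp1 (hhi j) (hlo l) h
        have h2 := zp_aux hp1 (hhi l) (hlo j) h.symm
        have h3 : -a.valuation = -b.valuation := le_antisymm h2 h1
        rw [h3] at h
        have h4 : (p : ℝ) ^ (-b.valuation) ≠ 0 := (zpow_pos hp0 _).ne'
        have h5 := mul_left_cancel₀ h4 h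
        exact hjl (Fin.ext (pow_right_injective_of_lt hw0 hw1 h5))
    have := hli.fintype_card_le_finrank
    rwa [Fintype.card_fin] at this
  -- the residue field
  have hmax := MM_max v hvna
  letI : Field (OO v hvna ⧸ MM v hvna) := Ideal.Quotient.field (MM v hvna)
  set k := OO v hvna ⧸ MM v hvna with hk
  have hpk : ((p : ℕ) : k) = 0 := by
    have h1 : ((p : ℕ) : k) = Ideal.Quotient.mk (MM v hvna) (p : OO v hvna) := by
      rw [map_natCast]
    rw [h1, Ideal.Quotient.eq_zero_iff_mem, mem_MM]
    push_cast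
    exact hvp1
  haveI : CharP k p := by
    have h1 : ringChar k ∣ p := ringChar.dvd hpk
    rcases (Nat.dvd_prime hp.1).1 h1 with h | h
    · exfalso
      have := ringChar.charP k
      rw [h] at this
      exact CharP.ringChar_ne_one (R := k) h
    · have := ringChar.charP k
      rwa [h] at this
  letI : Algebra (ZMod p) k := ZMod.algebra k p
  have hind : ∀ s : Finset k, (LinearIndependent (ZMod p) fun x : s => (x : k)) →
      s.card ≤ Module.finrank ℚ_[p] E := by
    intro s hs
    choose X hX using fun x : s => Ideal.Quotient.mk_surjective (I := MM v hvna) (x : k)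
    have hli : LinearIndependent ℚ_[p] (fun x : s => i (X x : F)) := by
      apply indep_res V hna hext
      · intro x
        exact (X x).2
      · intro c hc
        have h1 : (∑ x : s, ((c x : ZMod p)) • (x : k)) = 0 := by
          have h2 : (∑ x : s, ((c x : ZMod p)) • (x : k)) =
              Ideal.Quotient.mk (MM v hvna) (∑ x : s, (c x : OO v hvna) * X x) := by
            rw [map_sum]
            refine Finset.sum_congr rfl fun x _ => ?_
            rw [map_mul, map_intCast, hX, Algebra.smul_def, map_intCast]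
          rw [h2, Ideal.Quotient.eq_zero_iff_mem, mem_MM]
          have h3 : V (i ((∑ x : s, (c x : OO v hvna) * X x : OO v hvna) : F)) < 1 := by
            have h4 : i ((∑ x : s, (c x : OO v hvna) * X x : OO v hvna) : F) =
                ∑ x : s, (c x : E) * i (X x : F) := by
              push_cast
              rw [map_sum]
              refine Finset.sum_congr rfl fun x _ => ?_
              rw [map_mul, map_intCast]
            rw [h4]
            exact hc
          exact h3
        intro x
        have h5 := Fintype.linearIndependent_iff.1 hs (fun x => (c x : ZMod p)) h1 x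
        exact (ZMod.intCast_zmod_eq_zero_iff_dvd _ _).1 h5
    have := hli.fintype_card_le_finrank
    rwa [Fintype.card_coe] at this
  have hrank := rank_le hind
  haveI : Module.Finite (ZMod p) k := by
    rw [← Module.rank_lt_aleph0_iff]
    exact lt_of_le_of_lt hrank (Cardinal.nat_lt_aleph0 _)
  have hfr : Module.finrank (ZMod p) k ≤ Module.finrank ℚ_[p] E := Module.finrank_le_of_rank_le hrank
  haveI : Finite k := Module.finite_of_finite (ZMod p)
  letI : Fintype k := Fintype.ofFinite k
  have hcard : Fintype.card k = p ^ Module.finrank (ZMod p) k := by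
    have := Module.card_eq_pow_finrank (K := ZMod p) (V := k)
    rwa [ZMod.card] at this
  refine ⟨v, Module.finrank (ZMod p) k, e, Module.finrank_pos, hfr, hen, hvna,
    ⟨w, hw0, hw1, hwmax, he⟩, hvp1, OO v hvna, OO v hvna ⧸ MM v hvna, Ideal.Quotient.field (MM v hvna), Fintype.ofFinite k,
    Ideal.Quotient.mk (MM v hvna), fun x => Iff.rfl, fun x => ?_, Ideal.Quotient.mk_surjective, hcard⟩
  rw [Ideal.Quotient.eq_zero_iff_mem, mem_MM]

end place

end Pool.Agent.U965.ET
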