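import Pool.Agent.U965.ET.Fun
import Pool.Agent.N236.UR.TowE

/-!
# Towers with symmetric powers over fields with places (helper965)
-/

set_option autoImplicit false

namespace Pool.Agent.U965.ET

open Pool.Agent.N236.UB Pool.Agent.N236.UR Pool.Agent.N236.UR.Sym
open scoped LinearAlgebra.Projectivization

/-- the class (internal form) -/
inductive Tow (K : Type) [Field K] (D d : ℕ) :
    (n : ℕ) → ((Fin (n + 1) → K) → (Fin (n + 1) → K)) → Prop
  | point (a : K) (ha : a ≠ 0) : Tow K D d 0 (fun v _ => a * v 0 ^ d)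
  | line (T : (Fin (1 + 1) → K) → (Fin (1 + 1) → K)) (φ : ℙ K (K × K) → ℙ K (K × K))
      (hT : HomV T d) (hφ : ExcP K K D φ d)
      (h : ∀ (v : Fin (1 + 1) → K) (hv : (v 0, v 1) ≠ 0) (hTv : (T v 0, T v 1) ≠ 0),
        φ (Projectivization.mk K (v 0, v 1) hv) = Projectivization.mk K (T v 0, T v 1) hTv) :
      Tow K D d 1 T
  | symm (n : ℕ) (hn : 1 ≤ n) (Φ : Fin (n + 1) → MvPolynomial (Fin (n + 1)) K)
      (hom : ∀ j, (Φ j).IsHomogeneous d)
      (φ : ℙ (AlgebraicClosure K) (AlgebraicClosure K × AlgebraicClosure K) →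
          ℙ (AlgebraicClosure K) (AlgebraicClosure K × AlgebraicClosure K))
      (hφ : ExcP K (AlgebraicClosure K) (D * n) φ d) (h : IsSym φ Φ) : Tow K D d n (aN Φ)
  | ext (n : ℕ) (T : (Fin (n + 1) → K) → (Fin (n + 1) → K)) (F : (Fin (n + 2) → K) → K)
      (hT : Tow K D d n T) (hF : ∀ (a : K) x, F (a • x) = a ^ d * F x) (hfib : Fib D d F) :
      Tow K D d (n + 1) (ext T F)
  | join (a b : ℕ) (T₁ : (Fin (a + 1) → K) → (Fin (a + 1) → K))
      (T₂ : (Fin (b + 1) → K) → (Fin (b + 1) → K)) (h₁ : Tow K D d a T₁) (h₂ : Tow K D d b T₂)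
      (hp : ∀ p : ℕ, p.Prime → p ∣ d → D + 1 < p) : Tow K D d (a + 1 + b) (join T₁ T₂)
  | conj (n : ℕ) (T U : (Fin (n + 1) → K) → (Fin (n + 1) → K))
      (A B : Matrix (Fin (n + 1)) (Fin (n + 1)) K) (hT : Tow K D d n T) (hAB : A * B = 1)
      (h : ∀ v, U v = B.mulVec (T (A.mulVec v))) : Tow K D d n U

theorem tow_hom {K : Type} [Field K] {D d n : ℕ} (hd : 2 ≤ d)
    {T : (Fin (n + 1) → K) → (Fin (n + 1) → K)} (h : Tow K D d n T) : HomV T d := by
  induction h with
  | point a ha => exact hom_point ha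
  | line T φ hT hφ h => exact hT
  | symm n hn Φ hom φ hφ h => exact hom_sym hom h
  | ext n T F hT hF hfib ih => exact hom_ext ih (by omega) hF hfib
  | join a b T₁ T₂ h₁ h₂ hp ih₁ ih₂ => exact hom_join ih₁ ih₂
  | conj n T U A B hT hAB h ih =>
    have hBA : B * A = 1 := mul_eq_one_comm.mp hAB
    refine ⟨fun a v => ?_, fun v hv => ?_⟩
    · rw [h, h, Matrix.mulVec_smul, ih.1, Matrix.mulVec_smul]
    · rw [h]
      intro h0
      have h1 : T (A.mulVec v) = 0 := by
        have := congrArg A.mulVec h0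
        rwa [Matrix.mulVec_mulVec, hAB, Matrix.one_mulVec, Matrix.mulVec_zero] at this
      apply ih.2 _ _ h1
      intro h2
      apply hv
      have := congrArg B.mulVec h2
      rwa [Matrix.mulVec_mulVec, hBA, Matrix.one_mulVec, Matrix.mulVec_zero] at this

/-- **The theorem for towers.** -/
theorem tow_main (D d : ℕ) (hd : 2 ≤ d) (n : ℕ) :
    ∃ N C : ℕ, 1 ≤ N ∧ ∀ (K : Type) [Field K] [CharZero K], PlAll K D →
      ∀ m : ℕ, m ≤ n → ∀ T : (Fin (m + 1) → K) → (Fin (m + 1) → K), Tow K D d m T → Bd T N C := by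
  induction n with
  | zero =>
    refine ⟨1, 1, le_rfl, ?_⟩
    intro K _ _ _ m hm T h
    induction h with
    | point a ha => exact bd_point ha
    | line T φ hT hφ h => omega
    | symm n hn Φ hom φ hφ h => omega
    | ext n T F hT hF hfib ih => omega
    | join a b T₁ T₂ h₁ h₂ hp ih₁ ih₂ => omega
    | conj n T U A B hT hAB h ih => exact (Bd.conj (tow_hom hd hT) (ih hm) hAB h).2
  | succ n IH =>
    obtain ⟨N, C, hN, IH⟩ := IH
    have hdN : 2 ≤ d ^ N := by
      calc 2 ≤ d := hd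
        _ ≤ d ^ N := Nat.le_self_pow (by omega) d
    obtain ⟨N1, C1, hN1, H1⟩ := main6K D (d ^ N) hdN
    obtain ⟨N2, C2, hN2, H2⟩ := main6K D d hd
    obtain ⟨N3, C3, hN3, H3⟩ := mainSym D (n + 1) d (by omega) hd
    obtain ⟨N', hN'⟩ : ∃ N', N' = N2 * N3 * (N1 * N) := ⟨_, rfl⟩
    obtain ⟨C', hC'⟩ : ∃ C', C' = (C * C1 + 1) + (C + C + C * (C * C1)) + C2 + C3 := ⟨_, rfl⟩
    refine ⟨N', C', ?_, ?_⟩
    · rw [hN']
      exact Nat.mul_pos (Nat.mul_pos hN2 hN3) (Nat.mul_pos hN1 hN)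
    intro K _ _ hK m hm T h
    have hd0 : d ≠ 0 := by omega
    by_cases hmn : m ≤ n
    · have h1 := IH K hK m hmn T h
      rw [hN', ← mul_assoc]
      refine h1.mono (tow_hom hd h) _ ?_
      rw [hC']
      nlinarith [Nat.zero_le (C * C1), Nat.zero_le (C * (C * C1))]
    · have hm' : m = n + 1 := by omega
      clear hm hmn
      have hdim : Dim1 K D (d ^ N) N1 C1 := H1 K hK
      induction h with
      | point a ha => omega
      | line T φ hT hφ h =>
        have h1 := bd_line hT h (H2 K hK φ hφ)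
        have e : N' = (N3 * (N1 * N)) * N2 := by rw [hN']; ring
        rw [e]
        exact h1.mono hT _ (by rw [hC']; omega)
      | symm k hk Φ hom φ hφ h =>
        subst hm'
        have h1 := bd_sym (hom_sym hom h) (H3 K hK φ hφ Φ hom h)
        have e : N' = (N2 * (N1 * N)) * N3 := by rw [hN']; ring
        rw [e]
        exact h1.mono (hom_sym hom h) _ (by rw [hC']; omega)
      | ext k T F hT hF hfib ih =>
        have hk : k = n := by omega
        subst hk
        have h1 := bd_ext (tow_hom hd hT) hd0 hF hfib hN (IH K hK k le_rfl T hT) hdim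
        rw [hN']
        exact h1.mono (hom_ext (tow_hom hd hT) hd0 hF hfib) _
          (show C * C1 + 1 ≤ C' by rw [hC']; omega)
      | join a b T₁ T₂ h₁ h₂ hp ih₁ ih₂ =>
        have h1 := bd_join (tow_hom hd h₁) (tow_hom hd h₂) hd0 hp hN
          (IH K hK a (by omega) T₁ h₁) (IH K hK b (by omega) T₂ h₂) hdim
        rw [hN']
        exact h1.mono (hom_join (tow_hom hd h₁) (tow_hom hd h₂)) _
          (show C + C + C * (C * C1) ≤ C' by rw [hC']; omega)
      | conj k T U A B hT hAB h ih => exact (Bd.conj (tow_hom hd hT) (ih hm') hAB h).2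

/-- The theorem for maps with an iterate in the class. -/
theorem tow_root (D d : ℕ) (hd : 2 ≤ d) (n r : ℕ) (hr : 1 ≤ r) :
    ∃ N C : ℕ, 1 ≤ N ∧ ∀ (K : Type) [Field K] [CharZero K], PlAll K D →
      ∀ T : (Fin (n + 1) → K) → (Fin (n + 1) → K), (∀ (a : K) v, T (a • v) = a ^ d • T v) →
        Tow K D (d ^ r) n T^[r] → Bd T N C := by
  have hdr : 2 ≤ d ^ r := by
    calc 2 ≤ d := hd
      _ ≤ d ^ r := Nat.le_self_pow (by omega) d
  obtain ⟨N, C, hN, H⟩ := tow_main D (d ^ r) hdr n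
  refine ⟨r * N, C, Nat.mul_pos hr hN, ?_⟩
  intro K _ _ hK T hhom hT
  have hU := tow_hom hdr hT
  have hT0 : T 0 = 0 := by
    have := hhom 0 0
    rwa [smul_zero, zero_pow (by omega), zero_smul] at this
  have hz : ∀ k, T^[k] 0 = 0 := by
    intro k
    induction k with
    | zero => rfl
    | succ k ih => rw [Function.iterate_succ_apply', ih, hT0]
  have hTh : HomV T d := by
    refine ⟨hhom, fun v hv h0 => hU.2 v hv ?_⟩
    obtain ⟨s, rfl⟩ : ∃ s, r = s + 1 := ⟨r - 1, by omega⟩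
    rw [Function.iterate_succ_apply, h0, hz]
  have hb := H K hK n le_rfl _ hT
  have hpv : ∀ v, PV T v → PV T^[r] v := by
    rintro v ⟨m, k, hmk, c, hc, h⟩
    obtain ⟨c', hc', h'⟩ := orb hTh hmk hc h (s := r * m) (Nat.le_mul_of_pos_left m (by omega)) r
    refine ⟨m, k, hmk, c', hc', ?_⟩
    rw [← Function.iterate_mul, ← Function.iterate_mul]
    have e : r * m + r * (k - m) = r * k := by
      rw [← Nat.mul_add]
      congr 1
      omega
    rwa [e] at h'
  refine ⟨?_, ?_⟩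
  · intro v hv hp
    have := hb.1 v hv (hpv v hp)
    rwa [← Function.iterate_mul] at this
  · have hsub : {P : ℙ K (Fin (n + 1) → K) | PV T P.rep} ⊆ {P | PV T^[r] P.rep} :=
      fun P hP => hpv _ hP
    exact ⟨hb.2.1.subset hsub, (Set.ncard_le_ncard hsub hb.2.1).trans hb.2.2⟩

end Pool.Agent.U965.ET
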